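import Pool.Agent.R592.Ba.Defs

/-!
Project BAF, piece BAF-9: transfers between the Cantor space and the Baire space.
-/

open Cardinal Set Pool.Agent.R592.Ba

namespace Pool.Agent.R150.Ba

theorem mk_of_kdense {Y : Type} [TopologicalSpace Y] [Nonempty Y] {κ : Cardinal.{0}} {A : Set Y}
    (h : KDense κ A) : #A = κ := by
  have := h univ isOpen_univ univ_nonempty
  rwa [inter_univ] at this

theorem kdense_image {Y Z : Type} [TopologicalSpace Y] [TopologicalSpace Z] {κ : Cardinal.{0}}
    {A : Set Y} (φ : Y ≃ₜ Z) (h : KDense κ A) : KDense κ (φ '' A) := by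
  intro U hU hne
  have h1 : φ '' A ∩ U = φ '' (A ∩ φ ⁻¹' U) := (image_inter_preimage φ A U).symm
  rw [h1, mk_image_eq φ.injective]
  refine h _ (hU.preimage φ.continuous) ?_
  obtain ⟨u, hu⟩ := hne
  exact ⟨φ.symm u, by simpa using hu⟩

theorem kdense_preimage {e : W → X} (he : Topology.IsEmbedding e) {κ : Cardinal.{0}} {A : Set X}
    (hA : A ⊆ range e) (h : KDense κ A) : KDense κ (e ⁻¹' A) := by
  intro U hU hne
  obtain ⟨V, hV, rfl⟩ := he.isInducing.isOpen_iff.1 hU
  have h1 : e '' (e ⁻¹' A ∩ e ⁻¹' V) = A ∩ V := by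
    rw [← preimage_inter, image_preimage_eq_iff]
    exact fun x hx => hA hx.1
  rw [← mk_image_eq he.injective, h1]
  refine h V hV ?_
  obtain ⟨f, hf⟩ := hne
  exact ⟨e f, hf⟩

theorem kdense_embed {e : W → X} (he : Topology.IsEmbedding e) (hd : Dense (range e))
    {κ : Cardinal.{0}} {A : Set W} (h : KDense κ A) : KDense κ (e '' A) := by
  intro U hU hne
  have h1 : e '' A ∩ U = e '' (A ∩ e ⁻¹' U) := (image_inter_preimage e A U).symm
  rw [h1, mk_image_eq he.injective]
  refine h _ (hU.preimage he.continuous) ?_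
  obtain ⟨x, hx, ⟨f, rfl⟩⟩ := hd.inter_open_nonempty U hU hne
  exact ⟨f, hx⟩

/-- translation by `z` -/
def xorH (z : X) : X ≃ₜ X where
  toFun x := fun n => xor (x n) (z n)
  invFun x := fun n => xor (x n) (z n)
  left_inv x := by
    funext n
    simp
  right_inv x := by
    funext n
    simp
  continuous_toFun := continuous_pi fun n =>
    (continuous_of_discreteTopology (f := fun b : Bool => xor b (z n))).comp (continuous_apply n)
  continuous_invFun := continuous_pi fun n =>
    (continuous_of_discreteTopology (f := fun b : Bool => xor b (z n))).comp (continuous_apply n)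

theorem exists_shift {e : W → X} (hc : (range e)ᶜ.Countable) {κ : Cardinal.{0}} (hκ : κ < 𝔠)
    {A : Set X} (hA : #A = κ) : ∃ z : X, xorH z '' A ⊆ range e := by
  have h1 : #(image2 (fun a q : X => (fun n => xor (a n) (q n) : X)) A (range e)ᶜ) < #X := by
    have hX : #X = 𝔠 := by
      simp [X]
    rw [hX]
    refine lt_of_le_of_lt mk_image2_le ?_
    refine mul_lt_of_lt aleph0_le_continuum (by rwa [hA]) ?_
    exact lt_of_le_of_lt (le_aleph0_iff_set_countable.2 hc) aleph0_lt_continuum
  obtain ⟨z, hz⟩ : ∃ z : X, z ∉ image2 (fun a q : X => (fun n => xor (a n) (q n) : X)) A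
      (range e)ᶜ := by
    by_contra hcon
    push Not at hcon
    rw [eq_univ_of_forall hcon, mk_univ] at h1
    exact lt_irrefl _ h1
  refine ⟨z, ?_⟩
  rintro _ ⟨a, ha, rfl⟩
  by_contra hcon
  refine hz ⟨a, ha, xorH z a, hcon, ?_⟩
  funext n
  simp [xorH]

/-- a subset of the range of an embedding is homeomorphic to its preimage -/
theorem nonempty_homeo {e : W → X} (he : Topology.IsEmbedding e) {A : Set X}
    (hA : A ⊆ range e) : Nonempty (A ≃ₜ (e ⁻¹' A : Set W)) := by
  have h1 : Topology.IsEmbedding (e ∘ (Subtype.val : (e ⁻¹' A : Set W) → W)) :=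
    he.comp Topology.IsEmbedding.subtypeVal
  have h2 : range (e ∘ (Subtype.val : (e ⁻¹' A : Set W) → W)) = A := by
    rw [range_comp, Subtype.range_val, image_preimage_eq_iff]
    exact hA
  exact ⟨((Homeomorph.setCongr h2).symm.trans h1.toHomeomorph.symm)⟩

theorem wToX : WtoX := by
  rintro ⟨e, he, hd, hc, -, -⟩ κ hκ hW A B hA hB
  obtain ⟨z, hz⟩ := exists_shift hc hκ (mk_of_kdense hA)
  obtain ⟨y, hy⟩ := exists_shift hc hκ (mk_of_kdense hB)
  have hA' := kdense_preimage he hz (kdense_image (xorH z) hA)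
  have hB' := kdense_preimage he hy (kdense_image (xorH y) hB)
  obtain ⟨g⟩ := hW _ _ hA' hB'
  obtain ⟨a⟩ := nonempty_homeo he hz
  obtain ⟨b⟩ := nonempty_homeo he hy
  exact ⟨((((xorH z).image A).trans a).trans g).trans (((xorH y).image B).trans b).symm⟩

theorem xToW : XtoW := by
  rintro ⟨e, he, hd, hc, hcd, -⟩ κ H A B hA hB
  have hdis : ∀ S : Set W, Disjoint (e '' S) (range e)ᶜ := fun S =>
    disjoint_compl_right_iff_subset.2 (image_subset_range e S)
  obtain ⟨h, h1, h2⟩ := H (e '' A) (e '' B) (range e)ᶜ (range e)ᶜ (kdense_embed he hd hA)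
    (kdense_embed he hd hB) hc hc hcd hcd (hdis A) (hdis B)
  have h3 : h '' range e = range e := by
    rw [image_compl_eq h.bijective] at h2
    exact compl_injective h2
  let g : W ≃ₜ W := he.toHomeomorph.trans
    (((h.image (range e)).trans (Homeomorph.setCongr h3)).trans he.toHomeomorph.symm)
  have hg : ∀ f, e (g f) = h (e f) := by
    intro f
    have h4 : (he.toHomeomorph (g f) : X) = h (e f) := by
      simp only [g, Homeomorph.trans_apply, Homeomorph.apply_symm_apply]
      rfl
    exact h4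
  refine ⟨g, Subset.antisymm ?_ ?_⟩
  · rintro _ ⟨f, hf, rfl⟩
    have h5 : h (e f) ∈ e '' B := h1 ▸ mem_image_of_mem h (mem_image_of_mem e hf)
    obtain ⟨b, hb, hb'⟩ := h5
    rw [← hg] at hb'
    rwa [← he.injective hb']
  · intro b hb
    have h5 : e b ∈ h '' (e '' A) := h1.symm ▸ mem_image_of_mem e hb
    obtain ⟨_, ⟨a, ha, rfl⟩, hab⟩ := h5
    rw [← hg] at hab
    exact ⟨a, ha, he.injective hab⟩

end Pool.Agent.R150.Ba
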